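import Pool.Agent.ABY.Stmts

set_option autoImplicit false

open scoped BigOperators Matrix

noncomputable section

namespace Pool.Agent.ABY.H53

open Pool.Agent.LE.QF Pool.Agent.AFJ Pool.Agent.ABY

theorem vir_zero {𝕜 : Type} [RCLike 𝕜] {X : Type} [Fintype X] [DecidableEq X]
    (M : Matrix X X 𝕜) (w : X → ℝ) (a : X) :
    vir M 0 w a = ∑ b, M a b * ((w b : ℝ) : 𝕜) := by
  have e : dg 𝕜 (0 : X → ℝ) = 0 := by
    ext i j
    simp [dg, Matrix.diagonal_apply]
  unfold vir TT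
  rw [e, mul_zero, sub_zero, inv_one, Matrix.one_mulVec]
  rfl

theorem sum_ind_sdiff {X : Type} [Fintype X] [DecidableEq X] (R D : Finset X) (hD : D ⊆ R)
    {𝕜 : Type} [RCLike 𝕜] (M : X → 𝕜) (h : X → ℝ) :
    ∑ b, M b * (((ind R b * h b : ℝ)) : 𝕜) =
      ∑ b, M b * (((ind (R \ D) b * h b : ℝ)) : 𝕜) + ∑ b ∈ D, M b * ((h b : ℝ) : 𝕜) := by
  have e : ∑ b ∈ D, M b * ((h b : ℝ) : 𝕜) = ∑ b, if b ∈ D then M b * ((h b : ℝ) : 𝕜) else 0 := by
    rw [Finset.sum_ite_mem, Finset.univ_inter]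
  rw [e, ← Finset.sum_add_distrib]
  apply Finset.sum_congr rfl
  intro b _
  unfold ind
  by_cases hb : b ∈ D
  · have hR := hD hb
    simp [hb, hR]
  · by_cases hR : b ∈ R
    · simp [hb, hR]
    · simp [hb, hR]

/-- VKL -/
theorem vkl : VklStmt := by
  intro hC hV X _ _ G g R D s e θ hs he0 he1 hθ hDR hg hK hY
  set P : X → ℝ := fun x => ind D x * s with hP
  set w : X → ℝ := fun x => ind (R \ D) x * (s * g x) with hw
  have K0 : ∀ a b, 0 ≤ KK G a b := fun a b => by unfold KK; positivity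
  have BK : ∀ a b, ‖BB G a b‖ = KK G a b := fun a b => by
    unfold BB KK
    rw [norm_pow]
  have P0 : ∀ x, 0 ≤ P x := by
    intro x
    simp only [hP, ind]
    split_ifs
    · linarith
    · linarith
  have hPU : ∀ x, x ∉ D → P x = 0 := by
    intro x hx
    simp [hP, ind, hx]
  have hKe : ∀ a ∈ R, ∑ b, KK G a b * P b * g b ≤ e * g a := by
    intro a ha
    refine le_trans (le_of_eq ?_) (hK a ha)
    have e1 : ∑ b ∈ D, KK G a b * (s * g b) =
        ∑ b, if b ∈ D then KK G a b * (s * g b) else 0 := by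
      rw [Finset.sum_ite_mem, Finset.univ_inter]
    rw [e1]
    apply Finset.sum_congr rfl
    intro b _
    by_cases hb : b ∈ D
    · simp [hP, ind, hb]
      ring
    · simp [hP, ind, hb]
  have cB : Cmp (BB G) (KK G) P g D R e :=
    ⟨fun a b => (BK a b).le, ⟨P0, hPU⟩, hDR, hg, ⟨he0, he1⟩, hKe⟩
  have cK : Cmp (KK G) (KK G) P g D R e :=
    ⟨fun a b => by rw [Real.norm_eq_abs, abs_of_nonneg (K0 a b)], ⟨P0, hPU⟩, hDR, hg,
      ⟨he0, he1⟩, hKe⟩
  obtain ⟨-, vB, -, -, -⟩ := hV hC ℂ X (BB G) (KK G) P g D R e cB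
  obtain ⟨-, vK, -, -, -⟩ := hV hC ℝ X (KK G) (KK G) P g D R e cK
  -- the first step
  have step : ∀ a ∈ R, ‖∑ b, BB G a b * ((w b : ℝ) : ℂ)‖ + ∑ b, KK G a b * w b ≤
      (1 + θ) * g a := by
    intro a ha
    refine le_trans ?_ (hY a ha)
    rw [vir_zero, vir_zero, sum_ind_sdiff R D hDR (BB G a) (fun x => s * g x),
      sum_ind_sdiff R D hDR (KK G a) (fun x => s * g x)]
    have h1 : ‖∑ b ∈ D, BB G a b * (((s * g b : ℝ)) : ℂ)‖ ≤ ∑ b ∈ D, KK G a b * (s * g b) := by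
      refine (norm_sum_le _ _).trans (Finset.sum_le_sum ?_)
      intro b hb
      rw [norm_mul, BK, Complex.norm_real, Real.norm_eq_abs,
        abs_of_nonneg (mul_nonneg hs.le (hg b (hDR hb)).le)]
    have h2 : ‖∑ b, BB G a b * ((w b : ℝ) : ℂ)‖ ≤
        ‖∑ b, BB G a b * ((w b : ℝ) : ℂ) + ∑ b ∈ D, BB G a b * (((s * g b : ℝ)) : ℂ)‖ +
          ‖∑ b ∈ D, BB G a b * (((s * g b : ℝ)) : ℂ)‖ := by
      have := norm_sub_le (∑ b, BB G a b * ((w b : ℝ) : ℂ) +
        ∑ b ∈ D, BB G a b * (((s * g b : ℝ)) : ℂ)) (∑ b ∈ D, BB G a b * (((s * g b : ℝ)) : ℂ))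
      rwa [add_sub_cancel_right] at this
    change ‖∑ b, BB G a b * ((w b : ℝ) : ℂ)‖ + ∑ b, KK G a b * w b ≤
      ‖∑ b, BB G a b * ((w b : ℝ) : ℂ) + ∑ b ∈ D, BB G a b * (((s * g b : ℝ)) : ℂ)‖ +
        (∑ b, KK G a b * w b + ∑ b ∈ D, KK G a b * (s * g b))
    linarith
  have h1e : 0 < 1 - e := by linarith
  have hc := (hC ℂ X (BB G) (KK G) P g D R e cB).2 (vir (BB G) P w)
    (fun a => (1 + θ) / (1 - e) * g a - vir (KK G) P w a) ?_
  · intro a ha
    have := hc a ha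
    show ‖vir (BB G) P w a‖ + vir (KK G) P w a ≤ (1 + ((1 + θ) / (1 - e) - 1)) * g a
    have e1 : (1 + ((1 + θ) / (1 - e) - 1)) * g a = (1 + θ) / (1 - e) * g a := by ring
    rw [e1]
    linarith
  · intro a ha
    have e1 : vir (BB G) P w a - ∑ b, BB G a b * (((P b : ℝ) : ℂ) * vir (BB G) P w b) =
        ∑ b, BB G a b * ((w b : ℝ) : ℂ) := by
      rw [sub_eq_iff_eq_add]
      conv_lhs => rw [vB w a]
      rw [← Finset.sum_add_distrib]
      apply Finset.sum_congr rfl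
      intro b _
      unfold psi
      rw [mul_add]
      rfl
    have e2 : vir (KK G) P w a - ∑ b, KK G a b * (P b * vir (KK G) P w b) =
        ∑ b, KK G a b * w b := by
      rw [sub_eq_iff_eq_add]
      conv_lhs => rw [vK w a]
      rw [← Finset.sum_add_distrib]
      apply Finset.sum_congr rfl
      intro b _
      unfold psi
      rw [mul_add]
      rfl
    have e3 : ∑ b, KK G a b * (P b * ((1 + θ) / (1 - e) * g b - vir (KK G) P w b)) =
        (1 + θ) / (1 - e) * ∑ b, KK G a b * P b * g b -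
          ∑ b, KK G a b * (P b * vir (KK G) P w b) := by
      rw [Finset.mul_sum, ← Finset.sum_sub_distrib]
      apply Finset.sum_congr rfl
      intro b _
      ring
    have h6 : (1 + θ) / (1 - e) * ∑ b, KK G a b * P b * g b ≤ (1 + θ) / (1 - e) * (e * g a) :=
      mul_le_mul_of_nonneg_left (hKe a ha) (div_nonneg (by linarith) h1e.le)
    have h7 : (1 + θ) / (1 - e) * g a - (1 + θ) / (1 - e) * (e * g a) = (1 + θ) * g a := by
      field_simp
      try ring
    have h8 := step a ha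
    show ‖vir (BB G) P w a - ∑ b, BB G a b * (((P b : ℝ) : ℂ) * vir (BB G) P w b)‖ ≤
      (1 + θ) / (1 - e) * g a - vir (KK G) P w a -
        ∑ b, KK G a b * (P b * ((1 + θ) / (1 - e) * g b - vir (KK G) P w b))
    rw [e1, e3]
    linarith

end Pool.Agent.ABY.H53
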